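import Mathlib
import Pool.Agent.W442.SN.NC

/-!
# A tangent cone of a Schubert variety that is not Cohen-Macaulay

For `w = 6 9 10 4 8 7 5 1 2 3` and `v = 1 6 9 4 8 7 5 2 3 10` in `S_10` one has `v ≤ w` and the
associated graded ring of the local ring of `X_w` at `e_v` is not Cohen-Macaulay.
-/

namespace Pool.Agent.Results.MP_9fb153_ag.TangentConeNotCM

open Pool.Agent.W442.SV Pool.Agent.W442.SN

/-- The associated graded ring of `R` with respect to `m` is Cohen-Macaulay. -/
def GrCM {R : Type} [CommRing R] (m : Ideal R) : Prop := IsCM (GrRing m)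

/-- The associated graded ring `⊕ m^i / m^(i+1)` of the local ring of `X_w` at `e_v` is
Cohen-Macaulay. -/
def TangentConeCM {n : ℕ} (v w : Equiv.Perm (Fin n)) : Prop := GrCM (R := LocalRing v w) (mx v w)

/-- There are `v ≤ w` in `S_10` such that the associated graded ring `⊕ m^i / m^(i+1)` of the local
ring of `X_w` at `e_v` is not Cohen-Macaulay. -/
theorem result : ∃ v w : Equiv.Perm (Fin 10), BruhatLE v w ∧ ¬ TangentConeCM v w :=
  ⟨v1, w1, v1_le_w1, not_cm⟩

end Pool.Agent.Results.MP_9fb153_ag.TangentConeNotCM
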